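import Pool.Agent.Helper64.XJ.Mems
import Pool.Agent.Helper94.H2.Ref

/-!
# Second type: the dynamical data of a configuration
-/

set_option autoImplicit false

namespace Pool.Agent.Helper64.XJ

open Pool.Agent.Helper28.HN (I Un En cr aff cp)
open Pool.Agent.Helper24.H2 Pool.Agent.Helper28.H2 Pool.Agent.Helper24.HN

/-- The roots are indexed by `Fin (m + 2)`: `y = 0`, `j = Fin.last (m + 1)`, `m = 1`, `l = 2`. -/
theorem exists_mems {p : ℕ} [Fact p.Prime] (hp : p ≠ 2) {m : ℕ} (hm : 4 ≤ m) (c : Ix m → ℤ_[p])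
    (k : Un m → ℤ_[p]) (h : Cfg c k) (L : Loc p (m + 1))
    (hA : ∀ x, L.A x = (Mx c (aff x)).det * Ah c (aff x))
    (hB : ∀ x, L.B x = (Mx c (aff x)).det * (2 * Bh c (aff x)))
    (hC : ∀ x, L.C x = (Mx c (aff x)).det * Ch c (aff x))
    (hxi : ∀ x z, L.xi x z = vh c (yh c (aff x) z))
    (hpsi : ∀ x z, L.psi x z = 2 * th c (aff x) z * psh c (aff x) z)
    (hkap : ∀ x z, L.kap x z = th c (aff x) z * kah c (aff x) z)
    (hsl : ∀ x z, psh c (aff x) z = 0 → L.sl x z z =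
      2 * th c (aff x) z * (psP c (aff x)).derivative.eval z)
    (hd : ∀ x v, ∃ d, (∀ z, L.dF x v z = qh c (aff x) (Fin.cons 0 v) z + d * Fh c (aff x) z) ∧
      L.dA x v = qa c (aff x) (Fin.cons 0 v) + d * Ah c (aff x)) :
    ∃ (R : Ref L (Fin (m + 2))) (M : Mems L R), R.u0 = (fun i => k (.inl i)) ∧
      R.z = (fun a => k (.inr a)) ∧ R.y = 0 ∧ R.j = Fin.last (m + 1) ∧ R.m = 1 ∧ R.l = 2 ∧
      (∀ N x z, M.Mem N x z → (Mx c (aff x)).det ≠ 0 → Rp c k (2 * N + 1) x z) ∧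
      (∀ N x z, M.Mem' N x z → (Mx c (aff x)).det ≠ 0 → Rp c k (2 * N + 2) x z) := by
  obtain ⟨R, hu, hz, hy, hj, hmm, hl⟩ :=
    Helper94.H2.exists_ref hp hm c k h L hA hB hC hxi hpsi hkap hsl hd
  obtain ⟨M, h1, h2⟩ := exists_mems' (by omega) h L hA hB hC hxi hpsi hkap
    (fun x v => by
      obtain ⟨d, hd, -⟩ := hd x v
      exact ⟨d, hd⟩) R hu hz hy
  exact ⟨R, M, hu, hz, hy, hj, hmm, hl, h1, h2⟩

end Pool.Agent.Helper64.XJ
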