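import Pool.Agent.Helper64.XJ.Line

/-!
# Second type: the identities in the form in which they are used
-/

set_option autoImplicit false

namespace Pool.Agent.Helper64.XJ.P

open Pool.Agent.Helper28.HN (I Un En cr aff)
open Pool.Agent.Helper24.H2
open Pool.Agent.Helper64

variable {m : ℕ} {S : Type*} [CommRing S] (c : Ix m → S) (x y ξ : I m → S) (z w α β : S)

theorem lx_yh (r : Fin m) : lx c r x (yh c x z) = 0 := XJ.lx_yh c r x z
theorem ly_xh (r : Fin m) : ly c r (xh c y) y = 0 := XJ.ly_xh c r y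
theorem yh_zero : yh c x z 0 = (Mx c x).det := XJ.yh_zero c x z
theorem yh_one : yh c x z 1 = z * (Mx c x).det := XJ.yh_one c x z
theorem xh_zero : xh c y 0 = 0 := rfl
theorem det_y (h : ∀ r, lx c r x y = 0) (i : I m) :
    (Mx c x).det * y i = y 0 * Y0 c x i + y 1 * Y1 c x i := XJ.det_y c x y h i
theorem det_x (h : ∀ r, ly c r ξ y = 0) (h0 : ξ 0 = 0) (i : I m) :
    (Nx c y).det * ξ i = ξ (Fin.last (m + 1)) * xh c y i := XJ.det_x c y ξ h h0 i
theorem onX_iff_lx (hm : 1 ≤ m) : OnX c x y ↔ (∀ r, lx c r x y = 0) ∧ tf c x y y = 0 :=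
  ⟨fun h => ⟨onX_lx c h, h.2.2⟩, fun h => onX_of_lx c hm h.1 h.2⟩
theorem onX_iff_ly (hm : 1 ≤ m) : OnX c x y ↔ (∀ r, ly c r x y = 0) ∧ sf c x x y = 0 :=
  ⟨fun h => ⟨onX_ly c h, h.2.1⟩, fun h => onX_of_ly c hm h.1 h.2⟩
theorem Fh_eq : Fh c x z = Ah c x * z ^ 2 + 2 * Bh c x * z + Ch c x := XJ.Fh_eq c x z
theorem qh_psh (hm : 1 ≤ m) : qh c x (xh c (yh c x z)) z = 2 * th c x z * psh c x z :=
  XJ.qh_psh c x z hm
theorem qh_eq : ∃ b e : S, ∀ z, qh c x ξ z = qa c x ξ * z ^ 2 + b * z + e := XJ.qh_eq c x ξ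
theorem yh_smul (hm : 1 ≤ m) : yh c (fun i => α * x i) z = fun i => α ^ (m + 1) * yh c x z i :=
  yh_sm c x z α hm
theorem xh_smul (hm : 1 ≤ m) : xh c (fun i => β * y i) = fun i => β ^ (m + 1) * xh c y i :=
  xh_sm c y β hm
theorem Ah_smul (hm : 1 ≤ m) : Ah c (fun i => α * x i) = α ^ (2 * m + 3) * Ah c x :=
  Ah_sm c x α hm
theorem ny_smul (hm : 1 ≤ m) : ny c (fun i => α * x i) (fun i => β * y i) =
    fun i => α ^ (2 * m + 3) * β * ny c x y i := ny_sm c x y α β hm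
theorem nx_smul (hm : 1 ≤ m) : nx c (fun i => α * x i) (fun i => β * y i) =
    fun i => α * β ^ (2 * m + 3) * nx c x y i := nx_sm c x y α β hm
theorem ny_yh (h : Ah c x * w = - 2 * Bh c x - Ah c x * z) :
    ny c x (yh c x z) = fun i => Ah c x * yh c x w i := ny_yh' c x z w h
theorem onX_ny (hm : 1 ≤ m) (h : OnX c x y) : OnX c x (ny c x y) := XJ.onX_ny c hm h
theorem onX_nx (hm : 1 ≤ m) (h : OnX c x y) : OnX c (nx c x y) y := XJ.onX_nx c hm h

end Pool.Agent.Helper64.XJ.P
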