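import Pool.Agent.Helper64.XJ.Alg

/-!
# Complete intersections in `P^(m+1) × P^(m+1)`, second type: derivative and homogeneity
-/

set_option autoImplicit false

namespace Pool.Agent.Helper64.XJ

open Pool.Agent.Helper28.HN (I Un En cr aff)
open Pool.Agent.Helper24.H2 Finset

variable {m : ℕ} {S : Type*} [CommRing S] (c : Ix m → S) (x y ξ : I m → S) (z w α β : S)

/-- The vertical part of the derivative. -/
noncomputable def vp (y : I m → S) : I m → S :=
  Fin.cons 0 (Fin.cons 0 (- ((Mx c x).adjugate.mulVec fun r => dl c r x ξ y)))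

theorem qh_def : qh c x ξ z = (Mx c x).det * tf c ξ (yh c x z) (yh c x z) +
    2 * tf c x (yh c x z) (vp c x ξ (yh c x z)) := rfl

theorem qa_def : qa c x ξ = (Mx c x).det * tf c ξ (Y1 c x) (Y1 c x) +
    2 * tf c x (Y1 c x) (vp c x ξ (Y1 c x)) := rfl

theorem vp_comb (a b : S) (y y' : I m → S) : vp c x ξ (fun i => a * y i + b * y' i) =
    fun i => a * vp c x ξ y i + b * vp c x ξ y' i := by
  have h : (fun r => dl c r x ξ (fun i => a * y i + b * y' i)) =
      a • (fun r => dl c r x ξ y) + b • fun r => dl c r x ξ y' := by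
    funext r
    rw [dl_comb]
    simp
  unfold vp
  rw [h, Matrix.mulVec_add, Matrix.mulVec_smul, Matrix.mulVec_smul]
  funext i
  refine Fin.cases ?_ (fun i => ?_) i
  · simp
  refine Fin.cases ?_ (fun i => ?_) i
  · simp
  · simp only [Fin.cons_succ, Pi.neg_apply, Pi.add_apply, Pi.smul_apply, smul_eq_mul]
    ring

/-- For the direction `xh` of the line over `y`: `qh = 2 th psh`. -/
theorem qh_psh (hm : 0 < m) : qh c x (xh c (yh c x z)) z = 2 * th c x z * psh c x z := by
  have h : vp c x (xh c (yh c x z)) (yh c x z) = fun i => (-(2 * psh c x z)) *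
      (Fin.cons 0 (Fin.cons 0 ((Mx c x).adjugate.mulVec
        fun r => if r.val + 1 < m then 0 else 1)) : I m → S) i := by
    have h1 : (fun r => dl c r x (xh c (yh c x z)) (yh c x z)) =
        (2 * psh c x z) • fun r : Fin m => (if r.val + 1 < m then 0 else 1 : S) := by
      funext r
      unfold dl
      simp only [Pi.smul_apply, smul_eq_mul]
      split_ifs with hr
      · rw [bf_xh]; ring
      · simp only [psh]; ring
    unfold vp
    rw [h1, Matrix.mulVec_smul]
    funext i
    refine Fin.cases ?_ (fun i => ?_) i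
    · simp
    refine Fin.cases ?_ (fun i => ?_) i
    · simp
    · simp only [Fin.cons_succ, Pi.neg_apply, Pi.smul_apply, smul_eq_mul]
      ring
  rw [qh_def, h, tf_smul_3, tf_xh c hm]
  simp only [th]
  ring

/-- For all `z`: `qh` is a quadratic polynomial in `z` with the leading coefficient `qa`. -/
theorem qh_eq : ∃ b e : S, ∀ z, qh c x ξ z = qa c x ξ * z ^ 2 + b * z + e := by
  refine ⟨(Mx c x).det * (2 * tf c ξ (Y0 c x) (Y1 c x)) +
    2 * (tf c x (Y1 c x) (vp c x ξ (Y0 c x)) + tf c x (Y0 c x) (vp c x ξ (Y1 c x))),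
    (Mx c x).det * tf c ξ (Y0 c x) (Y0 c x) + 2 * tf c x (Y0 c x) (vp c x ξ (Y0 c x)),
    fun z => ?_⟩
  rw [qh_def, qa_def, yh_eq, vp_comb]
  simp only [tf_comb_2, tf_comb_3]
  rw [tf_symm c ξ (Y1 c x) (Y0 c x)]
  ring

/-! ## Homogeneity -/

/-- The factors of the linear forms. -/
def dg (m : ℕ) (a : S) : Fin m → S := fun r => if r.val + 1 < m then a else a ^ 2

theorem prod_dg (hm : 0 < m) (a : S) : ∏ r, dg m a r = a ^ (m + 1) := by
  obtain ⟨k, rfl⟩ := Nat.exists_eq_succ_of_ne_zero hm.ne'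
  rw [Fin.prod_univ_castSucc]
  have h1 : ∀ i : Fin k, dg (k + 1) a i.castSucc = a := by
    intro i
    have := i.2
    unfold dg
    rw [if_pos (by simp)]
  have h2 : dg (k + 1) a (Fin.last k) = a ^ 2 := by
    unfold dg
    rw [if_neg (by simp)]
  rw [h2]
  simp only [Nat.succ_eq_add_one, h1, prod_const, card_univ, Fintype.card_fin]
  ring

theorem lx_sm (r : Fin m) : lx c r (fun i => α * x i) y = dg m α r * lx c r x y := by
  unfold lx dg
  split_ifs
  · rw [bf_smul_l]
  · rw [sf_smul_1, sf_smul_2]; ring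

theorem ly_sm (r : Fin m) : ly c r x (fun i => β * y i) = dg m β r * ly c r x y := by
  unfold ly dg
  split_ifs
  · rw [bf_smul_r]
  · rw [tf_smul_2, tf_smul_3]; ring

theorem Mx_sm : Mx c (fun i => α * x i) = Matrix.diagonal (dg m α) * Mx c x := by
  ext r b
  rw [Matrix.diagonal_mul]
  simp only [Mx, lx_sm]

theorem Nx_sm : Nx c (fun i => β * y i) = Matrix.diagonal (dg m β) * Nx c y := by
  ext r b
  rw [Matrix.diagonal_mul]
  simp only [Nx, ly_sm]

theorem det_dg (hm : 0 < m) (M : Matrix (Fin m) (Fin m) S) (a : S) :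
    (Matrix.diagonal (dg m a) * M).det = a ^ (m + 1) * M.det := by
  rw [Matrix.det_mul, Matrix.det_diagonal, prod_dg hm]

theorem adj_dg (hm : 0 < m) (M : Matrix (Fin m) (Fin m) S) (a : S) (v : Fin m → S) :
    (Matrix.diagonal (dg m a) * M).adjugate.mulVec (fun r => dg m a r * v r) =
      a ^ (m + 1) • M.adjugate.mulVec v := by
  have h : (fun r => dg m a r * v r) = (Matrix.diagonal (dg m a)).mulVec v := by
    funext r
    rw [Matrix.mulVec_diagonal]
  rw [h, Matrix.adjugate_mul_distrib, ← Matrix.mulVec_mulVec, adj_mulVec, Matrix.det_diagonal,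
    prod_dg hm, Matrix.mulVec_smul]

theorem Y0_sm (hm : 0 < m) : Y0 c (fun i => α * x i) = fun i => α ^ (m + 1) * Y0 c x i := by
  unfold Y0
  simp only [lx_sm]
  rw [Mx_sm, det_dg hm, adj_dg hm]
  funext i
  refine Fin.cases ?_ (fun i => ?_) i
  · simp
  refine Fin.cases ?_ (fun i => ?_) i
  · simp
  · simp

theorem Y1_sm (hm : 0 < m) : Y1 c (fun i => α * x i) = fun i => α ^ (m + 1) * Y1 c x i := by
  unfold Y1
  simp only [lx_sm]
  rw [Mx_sm, det_dg hm, adj_dg hm]
  funext i
  refine Fin.cases ?_ (fun i => ?_) i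
  · simp
  refine Fin.cases ?_ (fun i => ?_) i
  · simp
  · simp

theorem yh_sm (hm : 0 < m) : yh c (fun i => α * x i) z = fun i => α ^ (m + 1) * yh c x z i := by
  funext i
  simp only [yh, Y0_sm c x α hm, Y1_sm c x α hm]
  ring

theorem xh_sm (hm : 0 < m) : xh c (fun i => β * y i) = fun i => β ^ (m + 1) * xh c y i := by
  unfold xh vh
  simp only [ly_sm]
  rw [Nx_sm, det_dg hm, adj_dg hm]
  funext i
  refine Fin.cases ?_ (fun i => ?_) i
  · simp
  rw [Fin.cons_succ, Fin.cons_succ]
  refine Fin.lastCases ?_ (fun i => ?_) i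
  · simp
  · simp

theorem Ah_sm (hm : 0 < m) : Ah c (fun i => α * x i) = α ^ (2 * m + 3) * Ah c x := by
  unfold Ah
  rw [Y1_sm c x α hm, tf_smul_1, tf_smul_2, tf_smul_3]
  ring

theorem ny_sm (hm : 0 < m) : ny c (fun i => α * x i) (fun i => β * y i) =
    fun i => α ^ (2 * m + 3) * β * ny c x y i := by
  funext i
  unfold ny
  rw [Y1_sm c x α hm, Ah_sm c x α hm, tf_smul_1, tf_smul_2, tf_smul_3]
  ring

theorem nx_sm (hm : 0 < m) : nx c (fun i => α * x i) (fun i => β * y i) =
    fun i => α * β ^ (2 * m + 3) * nx c x y i := by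
  funext i
  unfold nx
  rw [xh_sm c y β hm]
  simp only [sf_smul_1, sf_smul_2, sf_smul_3]
  ring

theorem ny_yh' (h : Ah c x * w = - 2 * Bh c x - Ah c x * z) :
    ny c x (yh c x z) = fun i => Ah c x * yh c x w i := by
  funext i
  exact ny_yh c x z w (by linear_combination h) i

theorem onX_smul {x y : I m → S} (h : OnX c x y) (a b : S) :
    OnX c (fun i => a * x i) (fun i => b * y i) := by
  refine ⟨fun r => ?_, ?_, ?_⟩
  · rw [bf_smul_l, bf_smul_r, h.1 r]; ring
  · rw [sf_smul_1, sf_smul_2, sf_smul_3, h.2.1]; ring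
  · rw [tf_smul_1, tf_smul_2, tf_smul_3, h.2.2]; ring

end Pool.Agent.Helper64.XJ
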