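import Pool.Agent.Helper64.XJ.Nat

/-!
# Complete intersections in `P^(m+1) × P^(m+1)`, second type: identities
-/

set_option autoImplicit false

namespace Pool.Agent.Helper64.XJ

open Pool.Agent.Helper28.HN (I Un En cr aff)
open Pool.Agent.Helper24.H2 Finset

variable {m : ℕ} {S : Type*} [CommRing S] (c : Ix m → S)

/-! ## Bilinearity -/

theorem bf_comb_r (r : Bi m) (x : I m → S) (a b : S) (y y' : I m → S) :
    bf c r x (fun i => a * y i + b * y' i) = a * bf c r x y + b * bf c r x y' := by
  simp only [bf, mul_sum, ← sum_add_distrib]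
  exact sum_congr rfl fun i _ => sum_congr rfl fun j _ => by ring

theorem bf_comb_l (r : Bi m) (a b : S) (x x' y : I m → S) :
    bf c r (fun i => a * x i + b * x' i) y = a * bf c r x y + b * bf c r x' y := by
  simp only [bf, mul_sum, ← sum_add_distrib]
  exact sum_congr rfl fun i _ => sum_congr rfl fun j _ => by ring

theorem sf_comb_1 (a b : S) (x x' w y : I m → S) :
    sf c (fun i => a * x i + b * x' i) w y = a * sf c x w y + b * sf c x' w y := by
  simp only [sf, mul_sum, ← sum_add_distrib]
  exact sum_congr rfl fun i _ => sum_congr rfl fun j _ => sum_congr rfl fun k _ => by ring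

theorem sf_comb_3 (a b : S) (x x' y z : I m → S) :
    sf c x x' (fun i => a * y i + b * z i) = a * sf c x x' y + b * sf c x x' z := by
  simp only [sf, mul_sum, ← sum_add_distrib]
  exact sum_congr rfl fun i _ => sum_congr rfl fun j _ => sum_congr rfl fun k _ => by ring

theorem sf_symm (x x' y : I m → S) : sf c x x' y = sf c x' x y := by
  simp only [sf]
  rw [sum_comm]
  exact sum_congr rfl fun i _ => sum_congr rfl fun j _ => sum_congr rfl fun k _ => by ring

theorem sf_comb_2 (a b : S) (w x x' y : I m → S) :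
    sf c w (fun i => a * x i + b * x' i) y = a * sf c w x y + b * sf c w x' y := by
  rw [sf_symm, sf_comb_1, sf_symm c x, sf_symm c x']

theorem tf_comb_1 (a b : S) (x x' y y' : I m → S) :
    tf c (fun i => a * x i + b * x' i) y y' = a * tf c x y y' + b * tf c x' y y' := by
  simp only [tf, mul_sum, ← sum_add_distrib]
  exact sum_congr rfl fun i _ => sum_congr rfl fun j _ => sum_congr rfl fun k _ => by ring

theorem tf_comb_2 (a b : S) (x y z y' : I m → S) :
    tf c x (fun i => a * y i + b * z i) y' = a * tf c x y y' + b * tf c x z y' := by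
  simp only [tf, mul_sum, ← sum_add_distrib]
  exact sum_congr rfl fun i _ => sum_congr rfl fun j _ => sum_congr rfl fun k _ => by ring

theorem tf_symm (x y y' : I m → S) : tf c x y y' = tf c x y' y := by
  simp only [tf]
  refine sum_congr rfl fun i _ => ?_
  rw [sum_comm]
  exact sum_congr rfl fun j _ => sum_congr rfl fun k _ => by ring

theorem tf_comb_3 (a b : S) (x y' y z : I m → S) :
    tf c x y' (fun i => a * y i + b * z i) = a * tf c x y' y + b * tf c x y' z := by
  rw [tf_symm, tf_comb_2, tf_symm c x y, tf_symm c x z]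

theorem bf_smul_r (r : Bi m) (x : I m → S) (a : S) (y : I m → S) :
    bf c r x (fun i => a * y i) = a * bf c r x y := by
  have := bf_comb_r c r x a 0 y y
  simpa using this

theorem bf_smul_l (r : Bi m) (a : S) (x y : I m → S) :
    bf c r (fun i => a * x i) y = a * bf c r x y := by
  have := bf_comb_l c r a 0 x x y
  simpa using this

theorem sf_smul_1 (a : S) (x w y : I m → S) : sf c (fun i => a * x i) w y = a * sf c x w y := by
  have := sf_comb_1 c a 0 x x w y
  simpa using this

theorem sf_smul_2 (a : S) (x w y : I m → S) : sf c w (fun i => a * x i) y = a * sf c w x y := by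
  have := sf_comb_2 c a 0 w x x y
  simpa using this

theorem sf_smul_3 (a : S) (x x' y : I m → S) : sf c x x' (fun i => a * y i) = a * sf c x x' y := by
  have := sf_comb_3 c a 0 x x' y y
  simpa using this

theorem tf_smul_1 (a : S) (x y y' : I m → S) : tf c (fun i => a * x i) y y' = a * tf c x y y' := by
  have := tf_comb_1 c a 0 x x y y'
  simpa using this

theorem tf_smul_2 (a : S) (x y y' : I m → S) : tf c x (fun i => a * y i) y' = a * tf c x y y' := by
  have := tf_comb_2 c a 0 x y y y'
  simpa using this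

theorem tf_smul_3 (a : S) (x y y' : I m → S) : tf c x y' (fun i => a * y i) = a * tf c x y' y := by
  have := tf_comb_3 c a 0 x y' y y
  simpa using this

/-- The forms over `x` are linear in `y`. -/
theorem lx_comb (r : Fin m) (x : I m → S) (a b : S) (y y' : I m → S) :
    lx c r x (fun i => a * y i + b * y' i) = a * lx c r x y + b * lx c r x y' := by
  unfold lx
  split_ifs
  · rw [bf_comb_r]
  · rw [sf_comb_3]

theorem lx_smul (r : Fin m) (x : I m → S) (a : S) (y : I m → S) :
    lx c r x (fun i => a * y i) = a * lx c r x y := by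
  have := lx_comb c r x a 0 y y
  simpa using this

/-- The forms over `y` are linear in `x`. -/
theorem ly_comb (r : Fin m) (a b : S) (x x' y : I m → S) :
    ly c r (fun i => a * x i + b * x' i) y = a * ly c r x y + b * ly c r x' y := by
  unfold ly
  split_ifs
  · rw [bf_comb_l]
  · rw [tf_comb_1]

theorem ly_smul (r : Fin m) (a : S) (x y : I m → S) :
    ly c r (fun i => a * x i) y = a * ly c r x y := by
  have := ly_comb c r a 0 x x y
  simpa using this

theorem dl_comb (r : Fin m) (x ξ : I m → S) (a b : S) (y y' : I m → S) :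
    dl c r x ξ (fun i => a * y i + b * y' i) = a * dl c r x ξ y + b * dl c r x ξ y' := by
  unfold dl
  split_ifs
  · rw [bf_comb_r]
  · rw [sf_comb_3]; ring

theorem exists_last (h : 0 < m) : ∃ r : Fin m, ¬ r.val + 1 < m :=
  ⟨⟨m - 1, by omega⟩, by simp; omega⟩

/-! ## Points of the complete intersection -/

theorem onX_lx {x y : I m → S} (h : OnX c x y) (r : Fin m) : lx c r x y = 0 := by
  unfold lx
  split_ifs
  · exact h.1 _
  · exact h.2.1

theorem onX_ly {x y : I m → S} (h : OnX c x y) (r : Fin m) : ly c r x y = 0 := by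
  unfold ly
  split_ifs
  · exact h.1 _
  · exact h.2.2

theorem onX_of_lx (hm : 0 < m) {x y : I m → S} (h : ∀ r, lx c r x y = 0) (h2 : tf c x y y = 0) :
    OnX c x y := by
  refine ⟨fun r => ?_, ?_, h2⟩
  · have := h r.1
    unfold lx at this
    rw [dif_pos r.2] at this
    exact this
  · obtain ⟨r, hr⟩ := exists_last hm
    have := h r
    unfold lx at this
    rw [dif_neg hr] at this
    exact this

theorem onX_of_ly (hm : 0 < m) {x y : I m → S} (h : ∀ r, ly c r x y = 0) (h2 : sf c x x y = 0) :
    OnX c x y := by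
  refine ⟨fun r => ?_, h2, ?_⟩
  · have := h r.1
    unfold ly at this
    rw [dif_pos r.2] at this
    exact this
  · obtain ⟨r, hr⟩ := exists_last hm
    have := h r
    unfold ly at this
    rw [dif_neg hr] at this
    exact this

/-! ## The lines -/

theorem lx_eq_sum (r : Fin m) (x y : I m → S) :
    lx c r x y = ∑ j, lx c r x (Pi.single j 1) * y j := by
  unfold lx
  split_ifs with hr
  · have h : ∀ j, bf c ⟨r, hr⟩ x (Pi.single j 1) = ∑ i, c (.inl (⟨r, hr⟩, i, j)) * x i := by
      intro j
      simp only [bf]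
      refine sum_congr rfl fun i _ => ?_
      rw [sum_eq_single j (fun b _ hb => by simp [hb]) (fun h => absurd (mem_univ _) h)]
      simp
    rw [sum_congr rfl fun j _ => by rw [h j]]
    simp only [bf, sum_mul]
    rw [sum_comm]
  · have h : ∀ j, sf c x x (Pi.single j 1) = ∑ i, ∑ i',
        (c (.inr (.inl (i, i', j))) + c (.inr (.inl (i', i, j)))) * x i * x i' := by
      intro j
      simp only [sf]
      refine sum_congr rfl fun i _ => sum_congr rfl fun i' _ => ?_
      rw [sum_eq_single j (fun b _ hb => by simp [hb]) (fun h => absurd (mem_univ _) h)]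
      simp
    rw [sum_congr rfl fun j _ => by rw [h j]]
    simp only [sf, sum_mul]
    rw [sum_comm]
    conv_rhs => rw [sum_comm]
    rw [sum_comm]
    refine sum_congr rfl fun i _ => ?_
    rw [sum_comm]

theorem ly_eq_sum (r : Fin m) (x y : I m → S) :
    ly c r x y = ∑ i, ly c r (Pi.single i 1) y * x i := by
  unfold ly
  split_ifs with hr
  · have h : ∀ i, bf c ⟨r, hr⟩ (Pi.single i 1) y = ∑ j, c (.inl (⟨r, hr⟩, i, j)) * y j := by
      intro i
      simp only [bf]
      rw [sum_eq_single i (fun b _ hb => by simp [hb]) (fun h => absurd (mem_univ _) h)]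
      simp
    rw [sum_congr rfl fun j _ => by rw [h j]]
    simp only [bf, sum_mul]
    exact sum_congr rfl fun i _ => sum_congr rfl fun j _ => by ring
  · have h : ∀ i, tf c (Pi.single i 1) y y = ∑ j, ∑ k,
        (c (.inr (.inr (i, j, k))) + c (.inr (.inr (i, k, j)))) * y j * y k := by
      intro i
      simp only [tf]
      rw [sum_eq_single i (fun b _ hb => by simp [hb]) (fun h => absurd (mem_univ _) h)]
      simp
    rw [sum_congr rfl fun j _ => by rw [h j]]
    simp only [tf, sum_mul]
    exact sum_congr rfl fun i _ => sum_congr rfl fun j _ => sum_congr rfl fun k _ => by ring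

/-- The equations of the line over `x`, in coordinates. -/
theorem lx_split (r : Fin m) (x y : I m → S) :
    lx c r x y = lx c r x (Pi.single 0 1) * y 0 + lx c r x (Pi.single 1 1) * y 1 +
      (Mx c x).mulVec (fun b => y b.succ.succ) r := by
  rw [lx_eq_sum, Fin.sum_univ_succ, Fin.sum_univ_succ]
  exact (add_assoc (G := S) _ _ _).symm

/-- The equations of the line over `y`, in coordinates. -/
theorem ly_split (r : Fin m) (x y : I m → S) :
    ly c r x y = ly c r (Pi.single 0 1) y * x 0 + ((Nx c y).mulVec (fun b => x b.castSucc.succ) r +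
      ly c r (Pi.single (Fin.last (m + 1)) 1) y * x (Fin.last (m + 1))) := by
  rw [ly_eq_sum, Fin.sum_univ_succ, Fin.sum_univ_castSucc, Fin.succ_last]
  rfl

theorem mulVec_adj (M : Matrix (Fin m) (Fin m) S) (v : Fin m → S) :
    M.mulVec (M.adjugate.mulVec v) = M.det • v := by
  rw [Matrix.mulVec_mulVec, Matrix.mul_adjugate, Matrix.smul_mulVec, Matrix.one_mulVec]

theorem adj_mulVec (M : Matrix (Fin m) (Fin m) S) (v : Fin m → S) :
    M.adjugate.mulVec (M.mulVec v) = M.det • v := by
  rw [Matrix.mulVec_mulVec, Matrix.adjugate_mul, Matrix.smul_mulVec, Matrix.one_mulVec]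

@[simp] theorem Y0_zero (x : I m → S) : Y0 c x 0 = (Mx c x).det := rfl

@[simp] theorem Y0_one (x : I m → S) : Y0 c x 1 = 0 := rfl

@[simp] theorem Y1_zero (x : I m → S) : Y1 c x 0 = 0 := rfl

@[simp] theorem Y1_one (x : I m → S) : Y1 c x 1 = (Mx c x).det := rfl

theorem Y0_succ (x : I m → S) : (fun b : Fin m => Y0 c x b.succ.succ) =
    - ((Mx c x).adjugate.mulVec fun r => lx c r x (Pi.single 0 1)) := rfl

theorem Y1_succ (x : I m → S) : (fun b : Fin m => Y1 c x b.succ.succ) =
    - ((Mx c x).adjugate.mulVec fun r => lx c r x (Pi.single 1 1)) := rfl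

@[simp] theorem yh_zero (x : I m → S) (z : S) : yh c x z 0 = (Mx c x).det := by
  simp [yh]

@[simp] theorem yh_one (x : I m → S) (z : S) : yh c x z 1 = z * (Mx c x).det := by
  simp [yh]

theorem lx_Y0 (r : Fin m) (x : I m → S) : lx c r x (Y0 c x) = 0 := by
  rw [lx_split, Y0_succ, Matrix.mulVec_neg, mulVec_adj, Y0_zero, Y0_one]
  simp only [Pi.neg_apply, Pi.smul_apply, smul_eq_mul]
  ring

theorem lx_Y1 (r : Fin m) (x : I m → S) : lx c r x (Y1 c x) = 0 := by
  rw [lx_split, Y1_succ, Matrix.mulVec_neg, mulVec_adj, Y1_zero, Y1_one]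
  simp only [Pi.neg_apply, Pi.smul_apply, smul_eq_mul]
  ring

theorem yh_eq (x : I m → S) (z : S) : yh c x z = fun i => 1 * Y0 c x i + z * Y1 c x i := by
  funext i
  simp [yh]

theorem lx_yh (r : Fin m) (x : I m → S) (z : S) : lx c r x (yh c x z) = 0 := by
  rw [yh_eq, lx_comb, lx_Y0, lx_Y1]
  ring

theorem xh_zero (y : I m → S) : xh c y 0 = 0 := rfl

theorem xh_last (y : I m → S) : xh c y (Fin.last (m + 1)) = (Nx c y).det := by
  rw [← Fin.succ_last]
  unfold xh vh
  rw [Fin.cons_succ, Fin.snoc_last]

theorem xh_mid (y : I m → S) : (fun b : Fin m => xh c y b.castSucc.succ) =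
    - ((Nx c y).adjugate.mulVec fun r => ly c r (Pi.single (Fin.last (m + 1)) 1) y) := by
  funext b
  unfold xh vh
  rw [Fin.cons_succ, Fin.snoc_castSucc]

theorem ly_xh (r : Fin m) (y : I m → S) : ly c r (xh c y) y = 0 := by
  rw [ly_split, xh_zero, xh_mid, xh_last, Matrix.mulVec_neg, mulVec_adj]
  simp only [Pi.neg_apply, Pi.smul_apply, smul_eq_mul]
  ring

theorem bf_xh (r : Bi m) (y : I m → S) : bf c r (xh c y) y = 0 := by
  have := ly_xh c r.1 y
  unfold ly at this
  rw [dif_pos r.2] at this
  exact this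

theorem tf_xh (hm : 0 < m) (y : I m → S) : tf c (xh c y) y y = 0 := by
  obtain ⟨r, hr⟩ := exists_last hm
  have := ly_xh c r y
  unfold ly at this
  rw [dif_neg hr] at this
  exact this

theorem bf_Y1 (r : Bi m) (x : I m → S) : bf c r x (Y1 c x) = 0 := by
  have := lx_Y1 c r.1 x
  unfold lx at this
  rw [dif_pos r.2] at this
  exact this

theorem sf_Y1 (hm : 0 < m) (x : I m → S) : sf c x x (Y1 c x) = 0 := by
  obtain ⟨r, hr⟩ := exists_last hm
  have := lx_Y1 c r x
  unfold lx at this
  rw [dif_neg hr] at this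
  exact this

theorem det_y (x y : I m → S) (h : ∀ r, lx c r x y = 0) (i : I m) :
    (Mx c x).det * y i = y 0 * Y0 c x i + y 1 * Y1 c x i := by
  have h1 : (Mx c x).mulVec (fun b => y b.succ.succ) =
      - (y 0 • (fun r => lx c r x (Pi.single 0 1)) + y 1 • fun r => lx c r x (Pi.single 1 1)) := by
    funext r
    have := h r
    rw [lx_split] at this
    simp only [Pi.neg_apply, Pi.smul_apply, Pi.add_apply, smul_eq_mul]
    linear_combination this
  have h2 := congrArg (Mx c x).adjugate.mulVec h1
  rw [adj_mulVec, Matrix.mulVec_neg, Matrix.mulVec_add, Matrix.mulVec_smul,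
    Matrix.mulVec_smul] at h2
  refine Fin.cases ?_ (fun i => ?_) i
  · rw [Y0_zero, Y1_zero]; ring
  refine Fin.cases ?_ (fun i => ?_) i
  · change (Mx c x).det * y 1 = y 0 * Y0 c x 1 + y 1 * Y1 c x 1
    rw [Y0_one, Y1_one]
    ring
  · have h3 := congrFun h2 i
    have h4 := congrFun (Y0_succ c x) i
    have h5 := congrFun (Y1_succ c x) i
    simp only [Pi.neg_apply, Pi.smul_apply, Pi.add_apply, smul_eq_mul] at h3 h4 h5
    simp only [h4, h5]
    linear_combination h3

/-- A point of the line over `x`. -/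
theorem det_mul_eq (x y : I m → S) (z : S) (h : ∀ r, lx c r x y = 0) (hz : y 1 = z * y 0)
    (i : I m) : (Mx c x).det * y i = y 0 * yh c x z i := by
  rw [det_y c x y h, hz]
  simp only [yh]
  ring

theorem det_x (y ξ : I m → S) (h : ∀ r, ly c r ξ y = 0) (h0 : ξ 0 = 0) (i : I m) :
    (Nx c y).det * ξ i = ξ (Fin.last (m + 1)) * xh c y i := by
  have h1 : (Nx c y).mulVec (fun b => ξ b.castSucc.succ) =
      - (ξ (Fin.last (m + 1)) • fun r => ly c r (Pi.single (Fin.last (m + 1)) 1) y) := by
    funext r
    have := h r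
    rw [ly_split, h0] at this
    simp only [Pi.neg_apply, Pi.smul_apply, smul_eq_mul]
    linear_combination this
  have h2 := congrArg (Nx c y).adjugate.mulVec h1
  rw [adj_mulVec, Matrix.mulVec_neg, Matrix.mulVec_smul] at h2
  refine Fin.cases ?_ (fun i => ?_) i
  · rw [h0, xh_zero]; ring
  refine Fin.lastCases ?_ (fun i => ?_) i
  · rw [Fin.succ_last, xh_last]
    ring
  · have h3 := congrFun h2 i
    have h4 := congrFun (xh_mid c y) i
    simp only [Pi.neg_apply, Pi.smul_apply, smul_eq_mul] at h3 h4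
    rw [h4]
    linear_combination h3

theorem Fh_eq (x : I m → S) (z : S) :
    Fh c x z = Ah c x * z ^ 2 + 2 * Bh c x * z + Ch c x := by
  simp only [Fh, Ah, Bh, Ch, yh_eq, tf_comb_2, tf_comb_3]
  rw [tf_symm c x (Y1 c x) (Y0 c x)]
  ring

/-- The form at a point of the line over `x`. -/
theorem sq_mul_eq (x y : I m → S) (z : S) (h : ∀ r, lx c r x y = 0) (hz : y 1 = z * y 0) :
    (Mx c x).det ^ 2 * tf c x y y = y 0 ^ 2 * Fh c x z := by
  have h1 : (fun i => (Mx c x).det * y i) = fun i => y 0 * yh c x z i := by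
    funext i
    exact det_mul_eq c x y z h hz i
  have h2 : tf c x (fun i => (Mx c x).det * y i) (fun i => (Mx c x).det * y i) =
      (Mx c x).det ^ 2 * tf c x y y := by
    rw [tf_smul_2, tf_smul_3]; ring
  rw [← h2, h1, tf_smul_2, tf_smul_3, Fh]
  ring

/-! ## The involutions -/

theorem nx_eq (x y : I m → S) : nx c x y = fun i => sf c (xh c y) (xh c y) y * x i +
    (- (2 * sf c x (xh c y) y)) * xh c y i := by
  funext i
  simp only [nx]
  ring

theorem ny_eq (x y : I m → S) : ny c x y = fun i => Ah c x * y i +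
    (- (2 * tf c x y (Y1 c x))) * Y1 c x i := by
  funext i
  simp only [ny]
  ring

theorem onX_nx (hm : 0 < m) {x y : I m → S} (h : OnX c x y) : OnX c (nx c x y) y := by
  refine ⟨fun r => ?_, ?_, ?_⟩
  · rw [nx_eq, bf_comb_l, bf_xh, h.1 r]
    ring
  · rw [nx_eq, sf_comb_1, sf_comb_2, sf_comb_2, h.2.1, sf_symm c (xh c y) x]
    ring
  · rw [nx_eq, tf_comb_1, tf_xh c hm, h.2.2]
    ring

theorem onX_ny (hm : 0 < m) {x y : I m → S} (h : OnX c x y) : OnX c x (ny c x y) := by
  refine ⟨fun r => ?_, ?_, ?_⟩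
  · rw [ny_eq, bf_comb_r, bf_Y1, h.1 r]
    ring
  · rw [ny_eq, sf_comb_3, sf_Y1 c hm, h.2.1]
    ring
  · rw [ny_eq, tf_comb_2, tf_comb_3, tf_comb_3, h.2.2, tf_symm c x (Y1 c x) y]
    simp only [Ah]
    ring

theorem ny_yh (x : I m → S) (z w : S) (h : Ah c x * w = - (2 * Bh c x) - Ah c x * z) (i : I m) :
    ny c x (yh c x z) i = Ah c x * yh c x w i := by
  have h1 : tf c x (yh c x z) (Y1 c x) = Bh c x + z * Ah c x := by
    rw [yh_eq, tf_comb_2]
    simp only [Ah, Bh]
    ring
  simp only [ny, h1, yh]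
  linear_combination (- Y1 c x i) * h

theorem nx_yh (x : I m → S) (z : S) (i : I m) :
    nx c x (yh c x z) i = kah c x z * x i - 2 * psh c x z * xh c (yh c x z) i := rfl

end Pool.Agent.Helper64.XJ
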