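import Pool.Agent.Helper64.XJ.Line
import Pool.Agent.Helper64.XI.Slope
import Pool.Agent.Helper28.H2.Cfg

/-!
# Second type: the points of the chain of curves and the local data
-/

set_option autoImplicit false

namespace Pool.Agent.Helper64.XJ

open Pool.Agent.Helper28.HN (I Un En cr aff cp)
open Pool.Agent.Helper24.H2 Pool.Agent.Helper28.H2 Pool.Agent.Helper24.HN Finset

section field

variable {m : ℕ} {K : Type*} [Field K] {c : Ix m → K} {x0 ξ0 y1 : I m → K}

/-- All curves of the chain lie on the complete intersection. -/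
theorem onX_ch (hm : 0 < m) (l0 : ∀ r, bf c r x0 y1 = 0) (l1 : ∀ r, bf c r ξ0 y1 = 0)
    (q0 : tf c x0 y1 y1 = 0) (q1 : tf c ξ0 y1 y1 = 0) (s0 : sf c x0 x0 y1 = 0)
    (s1 : sf c x0 ξ0 y1 = 0) (s2 : sf c ξ0 ξ0 y1 = 0) (N : ℕ) :
    OnX (fun e => Polynomial.C (c e)) (ch c x0 ξ0 y1 N).1 (ch c x0 ξ0 y1 N).2 := by
  induction N with
  | zero =>
    have e : (ch c x0 ξ0 y1 0).1 = fun i => 1 * (Polynomial.C (x0 i)) +
        Polynomial.X * (Polynomial.C (ξ0 i)) := by
      funext i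
      simp [ch]
    have e2 : (ch c x0 ξ0 y1 0).2 = fun i => Polynomial.C (y1 i) := rfl
    rw [e, e2]
    refine ⟨fun r => ?_, ?_, ?_⟩
    · rw [bf_comb_l, ← map_bf Polynomial.C, ← map_bf Polynomial.C, l0, l1]
      simp
    · rw [sf_comb_1, sf_comb_2, sf_comb_2, ← map_sf Polynomial.C, ← map_sf Polynomial.C,
        ← map_sf Polynomial.C, ← map_sf Polynomial.C, sf_symm c ξ0 x0, s0, s1, s2]
      simp
    · rw [tf_comb_1, ← map_tf Polynomial.C, ← map_tf Polynomial.C, q0, q1]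
      simp
  | succ N ih =>
    rw [ch]
    split_ifs with hN
    · exact onX_ny _ hm ih
    · exact onX_nx _ hm ih

/-- Values of the chain lie on the complete intersection. -/
theorem rz_onX (hm : 0 < m) (l0 : ∀ r, bf c r x0 y1 = 0) (l1 : ∀ r, bf c r ξ0 y1 = 0)
    (q0 : tf c x0 y1 y1 = 0) (q1 : tf c ξ0 y1 y1 = 0) (s0 : sf c x0 x0 y1 = 0)
    (s1 : sf c x0 ξ0 y1 = 0) (s2 : sf c ξ0 ξ0 y1 = 0) {N : ℕ}
    {x y : I m → K} (h : Rz c x0 ξ0 y1 N x y) : OnX c x y := by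
  obtain ⟨τ, α, β, -, -, hx, hy⟩ := h
  have h1 := onX_ch (c := c) hm l0 l1 q0 q1 s0 s1 s2 N
  have h2 : OnX c (fun i => ((ch c x0 ξ0 y1 N).1 i).eval τ)
      (fun i => ((ch c x0 ξ0 y1 N).2 i).eval τ) := by
    refine ⟨fun r => ?_, ?_, ?_⟩
    · have h3 := congrArg (Polynomial.evalRingHom τ) (h1.1 r)
      rw [map_bf, map_zero] at h3
      simpa only [Polynomial.coe_evalRingHom, Polynomial.eval_C] using h3
    · have h3 := congrArg (Polynomial.evalRingHom τ) h1.2.1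
      rw [map_sf, map_zero] at h3
      simpa only [Polynomial.coe_evalRingHom, Polynomial.eval_C] using h3
    · have h3 := congrArg (Polynomial.evalRingHom τ) h1.2.2
      rw [map_tf, map_zero] at h3
      simpa only [Polynomial.coe_evalRingHom, Polynomial.eval_C] using h3
  have h3 := onX_smul c h2 α β
  rwa [← funext hx, ← funext hy] at h3

theorem rz_scale {N : ℕ} {x y : I m → K} (h : Rz c x0 ξ0 y1 N x y) {a b : K} (ha : a ≠ 0)
    (hb : b ≠ 0) : Rz c x0 ξ0 y1 N (fun i => a * x i) (fun i => b * y i) := by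
  obtain ⟨τ, α, β, hα, hβ, hx, hy⟩ := h
  refine ⟨τ, a * α, b * β, mul_ne_zero ha hα, mul_ne_zero hb hβ, fun i => ?_, fun i => ?_⟩
  · change a * x i = _
    rw [hx i]; ring
  · change b * y i = _
    rw [hy i]; ring

/-- The involution over `x`. -/
theorem rz_ny' (hm : 0 < m) {N : ℕ} (hN : N % 2 = 0) {x y : I m → K} (h : Rz c x0 ξ0 y1 N x y) :
    Rz c x0 ξ0 y1 (N + 1) x (ny c x y) := by
  obtain ⟨τ, α, β, hα, hβ, hx, hy⟩ := h
  refine ⟨τ, α, α ^ (2 * m + 3) * β, hα, mul_ne_zero (pow_ne_zero _ hα) hβ, fun i => ?_,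
    fun i => ?_⟩
  · rw [ch, if_pos hN]
    exact hx i
  · have h1 := congrFun (map_ny (Polynomial.evalRingHom τ) (fun e => Polynomial.C (c e))
      (ch c x0 ξ0 y1 N).1 (ch c x0 ξ0 y1 N).2) i
    simp only [Polynomial.coe_evalRingHom, Polynomial.eval_C] at h1
    rw [ch, if_pos hN]
    change ny c x y i = _ * Polynomial.eval τ (ny _ _ _ i)
    rw [h1, funext hx, funext hy, ny_sm _ _ _ _ _ hm]

/-- The involution over `y`. -/
theorem rz_nx' (hm : 0 < m) {N : ℕ} (hN : ¬ N % 2 = 0) {x y : I m → K} (h : Rz c x0 ξ0 y1 N x y) :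
    Rz c x0 ξ0 y1 (N + 1) (nx c x y) y := by
  obtain ⟨τ, α, β, hα, hβ, hx, hy⟩ := h
  refine ⟨τ, α * β ^ (2 * m + 3), β, mul_ne_zero hα (pow_ne_zero _ hβ), hβ, fun i => ?_,
    fun i => ?_⟩
  · have h1 := congrFun (map_nx (Polynomial.evalRingHom τ) (fun e => Polynomial.C (c e))
      (ch c x0 ξ0 y1 N).1 (ch c x0 ξ0 y1 N).2) i
    simp only [Polynomial.coe_evalRingHom, Polynomial.eval_C] at h1
    rw [ch, if_neg hN]
    change nx c x y i = _ * Polynomial.eval τ (nx _ _ _ i)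
    rw [h1, funext hx, funext hy, nx_sm _ _ _ _ _ hm]
  · rw [ch, if_neg hN]
    exact hy i

/-- The second point over `x`. -/
theorem ny_coord {x y : I m → K} {z w : K} (h0 : y 0 ≠ 0) (h1 : y 1 = z * y 0)
    (hl : ∀ r, lx c r x y = 0) (hA : Ah c x ≠ 0)
    (hw : Ah c x * w = - (2 * Bh c x) - Ah c x * z) :
    ny c x y 0 ≠ 0 ∧ ny c x y 1 = w * ny c x y 0 := by
  have e0 : ny c x y 0 = Ah c x * y 0 := by
    simp [ny]
  have e1 : ny c x y 1 = Ah c x * y 1 - 2 * (tf c x y (Y1 c x) * (Mx c x).det) := by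
    simp only [ny, Y1_one]
    ring
  have e2 : tf c x y (Y1 c x) * (Mx c x).det = y 0 * (Bh c x + z * Ah c x) := by
    have e3 : (fun i => (Mx c x).det * y i) = fun i => y 0 * yh c x z i :=
      funext (det_mul_eq c x y z hl h1)
    have e4 : tf c x (fun i => (Mx c x).det * y i) (Y1 c x) =
        (Mx c x).det * tf c x y (Y1 c x) := tf_smul_2 c _ _ _ _
    have e5 : tf c x (yh c x z) (Y1 c x) = Bh c x + z * Ah c x := by
      rw [yh_eq, tf_comb_2]
      simp only [Ah, Bh]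
      ring
    rw [mul_comm, ← e4, e3, tf_smul_2, e5]
  refine ⟨by rw [e0]; exact mul_ne_zero hA h0, ?_⟩
  rw [e1, e2, e0, h1]
  linear_combination (-(y 0)) * hw

/-- A point of the line over `x` with the first coordinate not zero. -/
theorem exists_scale {x y : I m → K} {z : K} (h0 : y 0 ≠ 0) (h1 : y 1 = z * y 0)
    (hl : ∀ r, lx c r x y = 0) (hD : (Mx c x).det ≠ 0) :
    ∃ s : K, s ≠ 0 ∧ y = fun i => s * yh c x z i := by
  refine ⟨y 0 / (Mx c x).det, div_ne_zero h0 hD, funext fun i => ?_⟩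
  have := det_mul_eq c x y z hl h1 i
  field_simp
  linear_combination this

end field

variable {p : ℕ} [Fact p.Prime] {m : ℕ}

/-- The inclusion. -/
noncomputable abbrev cj : ℤ_[p] →+* ℚ_[p] := PadicInt.Coe.ringHom

theorem cj_inj : Function.Injective (cj (p := p)) := Subtype.val_injective

theorem cp_eq {ι : Type*} (v : ι → ℤ_[p]) : cp v = fun i => cj (v i) := rfl

theorem cp_aff (u : Fin (m + 1) → ℤ_[p]) : cp (aff u) = aff (cp u) := map_aff cj u

variable {c : Ix m → ℤ_[p]} {k : Un m → ℤ_[p]}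

theorem isUnit_D (h : Cfg c k) : IsUnit (Mx c (aff fun i => k (.inl i))).det := by
  have := h.hP
  unfold Pp at this
  simp only [IsUnit.mul_iff] at this
  exact this.1.1.1.1.1.1.1

theorem cp_bf (c : Ix m → ℤ_[p]) (r : Bi m) (x y : I m → ℤ_[p]) :
    bf (cp c) r (cp x) (cp y) = cj (bf c r x y) := (map_bf cj c r x y).symm

theorem cp_sf (c : Ix m → ℤ_[p]) (x x' y : I m → ℤ_[p]) :
    sf (cp c) (cp x) (cp x') (cp y) = cj (sf c x x' y) := (map_sf cj c x x' y).symm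

theorem cp_tf (c : Ix m → ℤ_[p]) (x y y' : I m → ℤ_[p]) :
    tf (cp c) (cp x) (cp y) (cp y') = cj (tf c x y y') := (map_tf cj c x y y').symm

theorem cp_yh (c : Ix m → ℤ_[p]) (x : I m → ℤ_[p]) (z : ℤ_[p]) :
    cp (yh c x z) = yh (cp c) (cp x) (cj z) := map_yh cj c x z

theorem cp_xh (c : Ix m → ℤ_[p]) (y : I m → ℤ_[p]) :
    cp (xh c y) = xh (cp c) (cp y) := map_xh cj c y

theorem cp_det (c : Ix m → ℤ_[p]) (x : I m → ℤ_[p]) :
    (Mx (cp c) (cp x)).det = cj (Mx c x).det := (map_det_Mx cj c x).symm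

/-- `Rz` for the start curve of a configuration. -/
def Rq (c : Ix m → ℤ_[p]) (k : Un m → ℤ_[p]) (N : ℕ) (x y : I m → ℚ_[p]) : Prop :=
  Rz (cp c) (cp (aff fun i => k (.inl i))) (cp (xh c (sy c k))) (cp (sy c k)) N x y

theorem rq_onX (hm : 0 < m) (h : Cfg c k) {N : ℕ} {x y : I m → ℚ_[p]} (hr : Rq c k N x y) :
    OnX (cp c) x y := by
  refine rz_onX hm (fun r => ?_) (fun r => ?_) ?_ ?_ ?_ ?_ ?_ hr
  · have := lx_yh c r.1 (aff fun i => k (.inl i)) (k (.inr 0))
    unfold lx at this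
    rw [dif_pos r.2] at this
    rw [cp_bf]
    unfold sy
    rw [this, map_zero]
  · rw [cp_bf, bf_xh, map_zero]
  · have := h.F0
    rw [cp_tf]
    unfold Fh at this
    unfold sy
    rw [this, map_zero]
  · rw [cp_tf, tf_xh c hm, map_zero]
  · obtain ⟨r, hr⟩ := exists_last hm
    have := lx_yh c r (aff fun i => k (.inl i)) (k (.inr 0))
    unfold lx at this
    rw [dif_neg hr] at this
    rw [cp_sf]
    unfold sy
    rw [this, map_zero]
  · have := h.psi 0
    rw [cp_sf]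
    unfold psh at this
    unfold sy
    rw [this, map_zero]
  · have := h.kap
    rw [cp_sf]
    unfold kah at this
    unfold sy
    rw [this, map_zero]

/-- Points of the curve `N`. -/
def Mm (c : Ix m → ℤ_[p]) (k : Un m → ℤ_[p]) (N : ℕ) (x : Fin (m + 1) → ℤ_[p]) (z : ℤ_[p]) :
    Prop :=
  ∃ y : I m → ℚ_[p], y 0 ≠ 0 ∧ y 1 = cj z * y 0 ∧ Rq c k N (cp (aff x)) y

theorem mm_F (hm0 : 0 < m) (h : Cfg c k) {N : ℕ} {x : Fin (m + 1) → ℤ_[p]} {z : ℤ_[p]}
    (hm : Mm c k N x z) : Fh c (aff x) z = 0 := by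
  obtain ⟨y, h0, h1, hr⟩ := hm
  have hX := rq_onX hm0 h hr
  have hL := onX_lx _ hX
  have h2 := sq_mul_eq (cp c) (cp (aff x)) y (cj z) hL h1
  rw [hX.2.2, mul_zero] at h2
  have h3 : Fh (cp c) (cp (aff x)) (cj z) = 0 := by
    rcases mul_eq_zero.1 h2.symm with h4 | h4
    · exact absurd (pow_eq_zero_iff two_ne_zero |>.1 h4) h0
    · exact h4
  have h4 : cj (Fh c (aff x) z) = 0 := by
    rw [map_Fh]
    exact h3
  exact cj_inj (by rw [h4, map_zero])

theorem mm_rp (hm0 : 0 < m) (h : Cfg c k) {N : ℕ} {x : Fin (m + 1) → ℤ_[p]} {z : ℤ_[p]}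
    (hm : Mm c k N x z) (hD : (Mx c (aff x)).det ≠ 0) : Rp c k N x z := by
  obtain ⟨y, h0, h1, hr⟩ := hm
  have hX := rq_onX hm0 h hr
  have hL := onX_lx _ hX
  obtain ⟨s, hs, rfl⟩ := exists_scale h0 h1 hL (by
    rw [cp_det]
    intro h
    exact hD (cj_inj (by rw [h, map_zero])))
  have h2 := rz_scale hr one_ne_zero (inv_ne_zero hs)
  have h3 : (fun i => (1 : ℚ_[p]) * cp (aff x) i) = cp (aff x) := by
    funext i; rw [one_mul]
  have h4 : (fun i => s⁻¹ * (s * yh (cp c) (cp (aff x)) (cj z) i)) = cp (yh c (aff x) z) := by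
    rw [cp_yh]
    funext i
    field_simp
  rw [h3, h4] at h2
  exact h2

/-- The other root. -/
theorem other_root {A B C : ℤ_[p]} {z w : ℤ_[p]}
    (hv : ∀ v, A * v ^ 2 + B * v + C = A * (v - z) * (v - w)) : A * w = - B - A * z := by
  have h0 := hv 0
  have h1 := hv 1
  linear_combination h1 - h0

theorem mm_ny (hm0 : 0 < m) {N : ℕ} (hN : N % 2 = 0) (h : Cfg c k) {x : Fin (m + 1) → ℤ_[p]} {z w : ℤ_[p]}
    (hm : Mm c k N x z) (hA : Ah c (aff x) ≠ 0)
    (hw : Ah c (aff x) * w = - (2 * Bh c (aff x)) - Ah c (aff x) * z) : Mm c k (N + 1) x w := by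
  obtain ⟨y, h0, h1, hr⟩ := hm
  have hX := rq_onX hm0 h hr
  have hL := onX_lx _ hX
  have eA : Ah (cp c) (cp (aff x)) = cj (Ah c (aff x)) := (map_Ah cj c (aff x)).symm
  have eB : Bh (cp c) (cp (aff x)) = cj (Bh c (aff x)) := (map_Bh cj c (aff x)).symm
  have h2 := ny_coord (c := cp c) (w := cj w) h0 h1 hL (by
    rw [eA]
    intro h
    exact hA (cj_inj (by rw [h, map_zero]))) (by
    rw [eA, eB, ← map_mul, hw]
    simp only [map_sub, map_neg, map_mul, map_ofNat])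
  exact ⟨_, h2.1, h2.2, rz_ny' hm0 hN hr⟩

theorem mm_nx (hm0 : 0 < m) {N : ℕ} (hN : ¬ N % 2 = 0) (h : Cfg c k) {x : Fin (m + 1) → ℤ_[p]} {z t : ℤ_[p]}
    (hm : Mm c k N x z) (hk : kah c (aff x) z ≠ 0)
    (ht : t * kah c (aff x) z = 2 * psh c (aff x) z) :
    Mm c k (N + 1) (x - t • vh c (yh c (aff x) z)) z := by
  obtain ⟨y, h0, h1, hr⟩ := hm
  have hX := rq_onX hm0 h hr
  have hL := onX_lx _ hX
  have eK : kah (cp c) (cp (aff x)) (cj z) = cj (kah c (aff x) z) := (map_kah cj c (aff x) z).symm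
  have eP : psh (cp c) (cp (aff x)) (cj z) = cj (psh c (aff x) z) := (map_psh cj c (aff x) z).symm
  have hk' : kah (cp c) (cp (aff x)) (cj z) ≠ 0 := by
    rw [eK]
    intro h
    exact hk (cj_inj (by rw [h, map_zero]))
  have hD : (Mx (cp c) (cp (aff x))).det ≠ 0 := by
    intro hD
    have h2 : ∀ i, yh (cp c) (cp (aff x)) (cj z) i = 0 := by
      intro i
      have h3 := det_mul_eq (cp c) (cp (aff x)) y (cj z) hL h1 i
      rw [hD, zero_mul] at h3
      exact (mul_eq_zero.1 h3.symm).resolve_left h0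
    refine hk' ?_
    unfold kah
    rw [funext h2]
    have := sf_smul_3 (cp c) 0 (xh (cp c) fun x => 0) (xh (cp c) fun x => 0) (fun _ => 0)
    simpa using this
  obtain ⟨s, hs, rfl⟩ := exists_scale h0 h1 hL hD
  have h2 := rz_nx' hm0 hN hr
  have h3 : nx (cp c) (cp (aff x)) (fun i => s * yh (cp c) (cp (aff x)) (cj z) i) =
      fun i => (s ^ (2 * m + 3) * kah (cp c) (cp (aff x)) (cj z)) *
        cp (aff (x - t • vh c (yh c (aff x) z))) i := by
    have h4 := nx_sm (cp c) (cp (aff x)) (yh (cp c) (cp (aff x)) (cj z)) 1 s hm0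
    have h5 : (fun i => (1 : ℚ_[p]) * cp (aff x) i) = cp (aff x) := by
      funext i; rw [one_mul]
    rw [h5] at h4
    rw [h4]
    funext i
    have h6 : cp (aff (x - t • vh c (yh c (aff x) z))) i =
        cp (aff x) i - cj t * xh (cp c) (yh (cp c) (cp (aff x)) (cj z)) i := by
      rw [← cp_yh, ← cp_xh]
      refine Fin.cases ?_ (fun i => ?_) i
      · simp [cp, aff, xh]
      · simp [cp, aff, xh]
    have h7 : cj t * kah (cp c) (cp (aff x)) (cj z) =
        2 * psh (cp c) (cp (aff x)) (cj z) := by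
      rw [eK, eP, ← map_mul, ht]
      simp only [map_mul, map_ofNat]
    rw [nx_yh, h6]
    linear_combination (s ^ (2 * m + 3) * xh (cp c) (yh (cp c) (cp (aff x)) (cj z)) i) * h7
  rw [h3] at h2
  refine ⟨fun i => s * yh (cp c) (cp (aff x)) (cj z) i, h0, h1, ?_⟩
  have h8 : s ^ (2 * m + 3) * kah (cp c) (cp (aff x)) (cj z) ≠ 0 :=
    mul_ne_zero (pow_ne_zero _ hs) hk'
  have h9 := rz_scale h2 (inv_ne_zero h8) one_ne_zero
  have e1 : (fun i => (s ^ (2 * m + 3) * kah (cp c) (cp (aff x)) (cj z))⁻¹ *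
      (s ^ (2 * m + 3) * kah (cp c) (cp (aff x)) (cj z) *
        cp (aff (x - t • vh c (yh c (aff x) z))) i)) =
      cp (aff (x - t • vh c (yh c (aff x) z))) := by
    funext i
    rw [← mul_assoc, inv_mul_cancel₀ h8, one_mul]
  have e2 : (fun i => (1 : ℚ_[p]) * (s * yh (cp c) (cp (aff x)) (cj z) i)) =
      fun i => s * yh (cp c) (cp (aff x)) (cj z) i := by
    funext i
    rw [one_mul]
  rw [e1, e2] at h9
  exact h9

/-- The start. -/
theorem mm_zero (h : Cfg c k) (t : ℤ_[p]) :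
    Mm c k 0 ((fun i => k (.inl i)) + t • vh c (yh c (aff fun i => k (.inl i)) (k (.inr 0))))
      (k (.inr 0)) := by
  refine ⟨cp (sy c k), ?_, ?_, ⟨cj t, 1, 1, one_ne_zero, one_ne_zero, fun i => ?_, fun i => ?_⟩⟩
  · have h1 : cp (sy c k) 0 = cj (Mx c (aff fun i => k (.inl i))).det := by
      unfold sy
      rw [cp, yh_zero]
      rfl
    rw [h1]
    intro h2
    exact (isUnit_D h).ne_zero (cj_inj (by rw [h2, map_zero]))
  · have h1 : sy c k 1 = k (.inr 0) * sy c k 0 := by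
      unfold sy
      rw [yh_zero, yh_one]
    change cj (sy c k 1) = cj (k (.inr 0)) * cj (sy c k 0)
    rw [h1, map_mul]
  · have e : ((ch (cp c) (cp (aff fun i => k (.inl i))) (cp (xh c (sy c k))) (cp (sy c k)) 0).1 i) =
        Polynomial.C (cp (aff fun i => k (.inl i)) i) +
          Polynomial.X * Polynomial.C (cp (xh c (sy c k)) i) := rfl
    rw [e]
    simp only [Polynomial.eval_add, Polynomial.eval_C, Polynomial.eval_mul, Polynomial.eval_X,
      one_mul]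
    refine Fin.cases ?_ (fun i => ?_) i
    · simp [cp, aff, xh]
    · simp [cp, aff, xh, sy]
  · have e : ((ch (cp c) (cp (aff fun i => k (.inl i))) (cp (xh c (sy c k))) (cp (sy c k)) 0).2 i) =
        Polynomial.C (cp (sy c k) i) := rfl
    rw [e, Polynomial.eval_C, one_mul]

theorem norm_det_sub (c : Ix m → ℤ_[p]) (x x' : Fin (m + 1) → ℤ_[p]) :
    ‖(Mx c (aff x)).det - (Mx c (aff x')).det‖ ≤ ‖x - x'‖ := by
  have h1 : ∀ x : Fin (m + 1) → ℤ_[p], (Mx c (aff x)).det = MvPolynomial.eval x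
      (Mx (fun e => MvPolynomial.C (c e)) (aff MvPolynomial.X)).det := by
    intro x
    rw [map_det_Mx]
    simp only [MvPolynomial.eval_C]
    rw [map_aff]
    simp only [MvPolynomial.eval_X]
  rw [h1 x, h1 x']
  exact Helper45.XN.norm_eval_sub_le _ _ _

theorem det_ne (h : Cfg c k) {x : Fin (m + 1) → ℤ_[p]}
    (hx : ‖x - fun i => k (.inl i)‖ ≤ (p : ℝ) ^ (-2 : ℤ)) : (Mx c (aff x)).det ≠ 0 := by
  intro h0
  have h1 := norm_det_sub c x (fun i => k (.inl i))
  have h2 : ‖(Mx c (aff fun i => k (.inl i))).det‖ = 1 := PadicInt.isUnit_iff.1 (isUnit_D h)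
  rw [h0, zero_sub, norm_neg, h2] at h1
  have h3 : (p : ℝ) ^ (-2 : ℤ) < 1 := by
    have h4 : (1 : ℝ) < p := by exact_mod_cast (Fact.out : p.Prime).one_lt
    exact zpow_lt_one_of_neg₀ h4 (by norm_num)
  linarith

theorem exists_mems' (hm0 : 0 < m) (h : Cfg c k) (L : Loc p (m + 1))
    (hA : ∀ x, L.A x = (Mx c (aff x)).det * Ah c (aff x))
    (hB : ∀ x, L.B x = (Mx c (aff x)).det * (2 * Bh c (aff x)))
    (hC : ∀ x, L.C x = (Mx c (aff x)).det * Ch c (aff x))
    (hxi : ∀ x z, L.xi x z = vh c (yh c (aff x) z))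
    (hpsi : ∀ x z, L.psi x z = 2 * th c (aff x) z * psh c (aff x) z)
    (hkap : ∀ x z, L.kap x z = th c (aff x) z * kah c (aff x) z)
    (hd : ∀ x v, ∃ d, ∀ z, L.dF x v z = qh c (aff x) (Fin.cons 0 v) z + d * Fh c (aff x) z)
    (R : Ref L (Fin (m + 2))) (hu : R.u0 = fun i => k (.inl i)) (hz : R.z = fun a => k (.inr a))
    (hy : R.y = 0) :
    ∃ M : Mems L R,
      (∀ N x z, M.Mem N x z → (Mx c (aff x)).det ≠ 0 → Rp c k (2 * N + 1) x z) ∧
      (∀ N x z, M.Mem' N x z → (Mx c (aff x)).det ≠ 0 → Rp c k (2 * N + 2) x z) := by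
  have hF : ∀ x z, L.F x z = (Mx c (aff x)).det * Fh c (aff x) z := by
    intro x z
    rw [Loc.F, hA, hB, hC, Fh_eq]
    ring
  have hzy : R.z R.y = k (.inr 0) := by rw [hz, hy]
  have hxy : L.xi R.u0 (R.z R.y) = vh c (yh c (aff fun i => k (.inl i)) (k (.inr 0))) := by
    rw [hxi, hzy, hu]
  have hroot : ∀ (x : V p (m + 1)) (z w : ℤ_[p]), L.A x ≠ 0 →
      (∀ v, L.F x v = L.A x * (v - z) * (v - w)) →
      Ah c (aff x) ≠ 0 ∧ Ah c (aff x) * w = - (2 * Bh c (aff x)) - Ah c (aff x) * z := by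
    intro x z w hAx hv
    rw [hA] at hAx
    have hD := left_ne_zero_of_mul hAx
    refine ⟨right_ne_zero_of_mul hAx, ?_⟩
    refine other_root (C := Ch c (aff x)) fun v => ?_
    have := hv v
    rw [hF, hA, Fh_eq] at this
    refine mul_left_cancel₀ hD ?_
    rw [this]
    ring
  refine ⟨{
    Mem := fun N x z => Mm c k (2 * N + 1) x z
    Mem' := fun N x z => Mm c k (2 * N + 2) x z
    on := fun N x z hM => ?_
    on' := fun N x z hM => ?_
    line := fun t _ => ?_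
    start := fun t w _ hAx hv => ?_
    inv2 := fun N x z t _ hM hk ht => ?_
    rel := fun x z hx h1 h2 h3 => ?_
    inv1 := fun N x z w _ hM hAx hv => ?_ }, fun N x z hM hD => mm_rp hm0 h hM hD,
    fun N x z hM hD => mm_rp hm0 h hM hD⟩
  · rw [hF, mm_F hm0 h hM, mul_zero]
  · rw [hF, mm_F hm0 h hM, mul_zero]
  · rw [hF, hxy, hzy, hu, mm_F hm0 h (mm_zero h t), mul_zero]
  · obtain ⟨h1, h2⟩ := hroot _ _ _ hAx hv
    rw [hxy, hu] at h1 h2 ⊢
    rw [hzy] at h2
    exact mm_ny hm0 (N := 0) rfl h (mm_zero h t) h1 h2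
  · rw [hxi]
    rw [hkap, hpsi] at ht
    rw [hkap] at hk
    have hne : th c (aff x) z * kah c (aff x) z ≠ 0 := by
      intro h0
      rw [h0, norm_zero] at hk
      exact zero_ne_one hk
    refine mm_nx hm0 (N := 2 * N + 1) (by omega) h hM (right_ne_zero_of_mul hne) ?_
    refine mul_left_cancel₀ (left_ne_zero_of_mul hne) ?_
    linear_combination ht
  · rw [hA] at h1
    rw [hB] at h2
    rw [hC] at h3
    have hD := det_ne h (x := x) (by rw [← hu]; exact hx)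
    obtain ⟨d, hd⟩ := hd x (L.xi x z)
    have h4 := hd z
    have h5 : Fh c (aff x) z = 0 := by
      refine mul_left_cancel₀ hD ?_
      rw [Fh_eq]
      linear_combination z ^ 2 * h1 + z * h2 + h3
    have h6 : (Fin.cons 0 (L.xi x z) : I m → ℤ_[p]) = xh c (yh c (aff x) z) := by
      rw [hxi]
      rfl
    rw [h5, h6, qh_psh _ _ _ hm0, mul_zero, add_zero] at h4
    rw [hpsi, h4]
  · obtain ⟨h1, h2⟩ := hroot _ _ _ hAx hv
    exact mm_ny hm0 (N := 2 * N + 2) (by omega) h hM h1 h2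

end Pool.Agent.Helper64.XJ
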